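import Pool.Agent.Helper75.KM.Stmts

/-!
# CCJ: weights that decay on dyadic intervals have bounded logarithmic energy
-/

set_option autoImplicit false

namespace Pool.Agent.Helper75.KM

open Pool.Agent.Helper8.Kak Pool.Agent.Helper89.KakGeo

theorem ccj_geom {x : ℝ} (hx0 : 0 < x) (hx1 : x < 1) (n : ℕ) :
    ∑ s ∈ Finset.range n, x ^ (s + 1) ≤ 1 / (1 - x) := by
  have h1 : (1 - x) * ∑ i ∈ Finset.range n, x ^ i = 1 - x ^ n := mul_neg_geom_sum x n
  have h2 : ∑ s ∈ Finset.range n, x ^ (s + 1) ≤ ∑ s ∈ Finset.range n, x ^ s := by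
    refine Finset.sum_le_sum fun s _ => ?_
    rw [pow_succ]
    exact mul_le_of_le_one_right (by positivity) hx1.le
  refine h2.trans ?_
  rw [le_div_iff₀ (by linarith), mul_comm, h1]
  have : 0 < x ^ n := by positivity
  linarith

/-- the distance of two grid indices, at least one -/
def ccj_d {M : ℕ} (t t' : Fin M) : ℕ := max ((t : ℤ) - (t' : ℤ)).natAbs 1

theorem ccj_dst {M : ℕ} (t t' : Fin M) : dst t t' = (ccj_d t t' : ℝ) / M := by
  have hM : (0 : ℝ) < M := by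
    have : 0 < M := lt_of_le_of_lt (Nat.zero_le _) t.2
    exact_mod_cast this
  unfold dst ccj_d ht
  have h1 : ((((t : ℤ) - (t' : ℤ)).natAbs : ℕ) : ℝ) = |(t : ℝ) - (t' : ℝ)| := by
    rw [Nat.cast_natAbs, Int.cast_abs]
    push_cast
    rfl
  rw [← sub_div, abs_div, abs_of_pos hM, Nat.cast_max, h1, Nat.cast_one, max_div_div_right hM.le]

theorem ccj_ld {n : ℕ} (t t' : Fin (2 ^ n)) :
    ld t t' ≤ Real.log 2 * (1 + ∑ s ∈ Finset.range n,
      if ((t : ℤ) - (t' : ℤ)).natAbs ≤ 2 ^ (n - (s + 1)) then (1 : ℝ) else 0) := by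
  have l2 : 0 < Real.log 2 := Real.log_pos (by norm_num)
  set d := ccj_d t t' with hd
  have hd1 : 1 ≤ d := le_max_right _ _
  have hdn : d ≤ 2 ^ n := by
    have h1 := t.2
    have h2 := t'.2
    have h3 : 1 ≤ 2 ^ n := Nat.one_le_two_pow
    rw [hd]
    unfold ccj_d
    omega
  set k := Nat.log 2 d with hk
  have hk1 : 2 ^ k ≤ d := Nat.pow_log_le_self 2 (by omega)
  have hk2 : d < 2 ^ (k + 1) := Nat.lt_pow_succ_log_self (by norm_num) d
  have hkn : k ≤ n := by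
    have : 2 ^ k ≤ 2 ^ n := hk1.trans hdn
    exact (Nat.pow_le_pow_iff_right (by norm_num)).1 this
  have e1 : ld t t' ≤ ((n : ℝ) - k) * Real.log 2 := by
    unfold ld
    rw [ccj_dst, one_div_div]
    have hd0 : (0 : ℝ) < d := by exact_mod_cast hd1
    have hk3 : ((2 : ℝ) ^ k) ≤ d := by exact_mod_cast hk1
    have hM : (((2 ^ n : ℕ)) : ℝ) = (2 : ℝ) ^ n := by push_cast; rfl
    have h4 : (((2 ^ n : ℕ)) : ℝ) / (d : ℝ) ≤ 2 ^ n / 2 ^ k := by
      rw [hM]
      exact div_le_div_of_nonneg_left (by positivity) (by positivity) hk3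
    have h5 : Real.log ((((2 ^ n : ℕ)) : ℝ) / (d : ℝ)) ≤ Real.log (2 ^ n / 2 ^ k) :=
      Real.log_le_log (by positivity) h4
    refine h5.trans (le_of_eq ?_)
    rw [Real.log_div (by positivity) (by positivity), Real.log_pow, Real.log_pow]
    ring
  have e2 : ((n : ℝ) - k) ≤ 1 + ∑ s ∈ Finset.range n,
      if ((t : ℤ) - (t' : ℤ)).natAbs ≤ 2 ^ (n - (s + 1)) then (1 : ℝ) else 0 := by
    have h1 : ∑ s ∈ Finset.range (n - k - 1), (1 : ℝ) ≤ ∑ s ∈ Finset.range n,
        if ((t : ℤ) - (t' : ℤ)).natAbs ≤ 2 ^ (n - (s + 1)) then (1 : ℝ) else 0 := by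
      have h2 : ∑ s ∈ Finset.range (n - k - 1), (1 : ℝ) = ∑ s ∈ Finset.range (n - k - 1),
          if ((t : ℤ) - (t' : ℤ)).natAbs ≤ 2 ^ (n - (s + 1)) then (1 : ℝ) else 0 := by
        refine Finset.sum_congr rfl fun s hs => ?_
        rw [Finset.mem_range] at hs
        have h3 : 2 ^ (k + 1) ≤ 2 ^ (n - (s + 1)) := Nat.pow_le_pow_right (by norm_num) (by omega)
        have h4 : ((t : ℤ) - (t' : ℤ)).natAbs ≤ d := le_max_left _ _
        rw [if_pos (by omega)]
      rw [h2]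
      refine Finset.sum_le_sum_of_subset_of_nonneg ?_ ?_
      · intro s hs
        rw [Finset.mem_range] at hs ⊢
        omega
      · intro s _ _
        split_ifs <;> norm_num
    rw [Finset.sum_const, Finset.card_range, nsmul_eq_mul, mul_one] at h1
    have h5 : ((n : ℝ) - k) ≤ 1 + ((n - k - 1 : ℕ) : ℝ) := by
      have h6 : n ≤ k + (1 + (n - k - 1)) := by omega
      have h7 : (n : ℝ) ≤ k + (1 + ((n - k - 1 : ℕ) : ℝ)) := by exact_mod_cast h6
      linarith
    linarith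
  calc ld t t' ≤ ((n : ℝ) - k) * Real.log 2 := e1
    _ = Real.log 2 * ((n : ℝ) - k) := mul_comm _ _
    _ ≤ _ := mul_le_mul_of_nonneg_left e2 l2.le

theorem ccj_three {q t t0 : ℕ} (hq : 0 < q) (h : ((t : ℤ) - (t0 : ℤ)).natAbs ≤ q) :
    t / q = t0 / q - 1 ∨ t / q = t0 / q ∨ t / q = t0 / q + 1 := by
  have h1 : t ≤ t0 + q := by omega
  have h2 : t0 ≤ t + q := by omega
  have h3 : t / q ≤ t0 / q + 1 := by
    have := Nat.div_le_div_right (c := q) h1
    rwa [Nat.add_div_right _ hq] at this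
  have h4 : t0 / q ≤ t / q + 1 := by
    have := Nat.div_le_div_right (c := q) h2
    rwa [Nat.add_div_right _ hq] at this
  clear h h1 h2
  generalize t / q = a at h3 h4 ⊢
  generalize t0 / q = b at h3 h4 ⊢
  omega

open scoped Classical in
/-- the module CCJ -/
theorem st_CCJ : ST_CCJ := by
  intro n w η W hη hw hW h t0
  have hW0 : 0 ≤ W := (Finset.sum_nonneg fun t _ => hw t).trans hW
  set x : ℝ := (2 : ℝ) ^ (-η) with hx
  have hx0 : 0 < x := Real.rpow_pos_of_pos (by norm_num) _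
  have hx1 : x < 1 := Real.rpow_lt_one_of_one_lt_of_neg (by norm_num) (by linarith)
  have hxs : ∀ s : ℕ, (2 : ℝ) ^ (-(η * s)) = x ^ s := by
    intro s
    rw [hx, ← Real.rpow_natCast, ← Real.rpow_mul (by norm_num)]
    congr 1
    ring
  have l2 : 0 < Real.log 2 := Real.log_pos (by norm_num)
  have l2' : Real.log 2 ≤ 1 := by
    have := Real.log_two_lt_d9
    linarith
  have he : 0 < Real.exp 1 := Real.exp_pos 1
  -- mass of the neighbourhood
  have key : ∀ s ∈ Finset.range n, (∑ t : Fin (2 ^ n), w t *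
      (if ((t : ℤ) - (t0 : ℤ)).natAbs ≤ 2 ^ (n - (s + 1)) then (1 : ℝ) else 0))
      ≤ 3 * Real.exp 1 * W * x ^ (s + 1) := by
    intro s hs
    rw [Finset.mem_range] at hs
    have hq : 0 < 2 ^ (n - (s + 1)) := Nat.two_pow_pos _
    have b1 := h (s + 1) hs ((t0 : ℕ) / 2 ^ (n - (s + 1)) - 1)
    have b2 := h (s + 1) hs ((t0 : ℕ) / 2 ^ (n - (s + 1)))
    have b3 := h (s + 1) hs ((t0 : ℕ) / 2 ^ (n - (s + 1)) + 1)
    rw [hxs] at b1 b2 b3
    have b4 : (∑ t : Fin (2 ^ n), w t *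
        (if ((t : ℤ) - (t0 : ℤ)).natAbs ≤ 2 ^ (n - (s + 1)) then (1 : ℝ) else 0))
        ≤ (∑ t : Fin (2 ^ n), if (t : ℕ) / 2 ^ (n - (s + 1)) =
            (t0 : ℕ) / 2 ^ (n - (s + 1)) - 1 then w t else 0)
          + (∑ t : Fin (2 ^ n), if (t : ℕ) / 2 ^ (n - (s + 1)) =
            (t0 : ℕ) / 2 ^ (n - (s + 1)) then w t else 0)
          + (∑ t : Fin (2 ^ n), if (t : ℕ) / 2 ^ (n - (s + 1)) =
            (t0 : ℕ) / 2 ^ (n - (s + 1)) + 1 then w t else 0) := by
      rw [← Finset.sum_add_distrib, ← Finset.sum_add_distrib]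
      refine Finset.sum_le_sum fun t _ => ?_
      have ht := hw t
      have p1 : (0 : ℝ) ≤ if (t : ℕ) / 2 ^ (n - (s + 1)) =
            (t0 : ℕ) / 2 ^ (n - (s + 1)) - 1 then w t else 0 := by
        split_ifs <;> linarith
      have p2 : (0 : ℝ) ≤ if (t : ℕ) / 2 ^ (n - (s + 1)) =
            (t0 : ℕ) / 2 ^ (n - (s + 1)) then w t else 0 := by
        split_ifs <;> linarith
      have p3 : (0 : ℝ) ≤ if (t : ℕ) / 2 ^ (n - (s + 1)) =
            (t0 : ℕ) / 2 ^ (n - (s + 1)) + 1 then w t else 0 := by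
        split_ifs <;> linarith
      by_cases hc : ((t : ℤ) - (t0 : ℤ)).natAbs ≤ 2 ^ (n - (s + 1))
      · rw [if_pos hc, mul_one]
        rcases ccj_three hq hc with h1 | h1 | h1
        · rw [if_pos h1]
          linarith
        · rw [if_pos h1]
          linarith
        · rw [if_pos h1]
          linarith
      · rw [if_neg hc, mul_zero]
        linarith
    nlinarith
  have s1 : ∑ t : Fin (2 ^ n), w t * ld t t0 ≤ ∑ t : Fin (2 ^ n), w t * (Real.log 2 *
      (1 + ∑ s ∈ Finset.range n,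
        if ((t : ℤ) - (t0 : ℤ)).natAbs ≤ 2 ^ (n - (s + 1)) then (1 : ℝ) else 0)) :=
    Finset.sum_le_sum fun t _ => mul_le_mul_of_nonneg_left (ccj_ld t t0) (hw t)
  have s2 : ∑ t : Fin (2 ^ n), w t * (Real.log 2 *
      (1 + ∑ s ∈ Finset.range n,
        if ((t : ℤ) - (t0 : ℤ)).natAbs ≤ 2 ^ (n - (s + 1)) then (1 : ℝ) else 0))
      = Real.log 2 * (∑ t, w t + ∑ s ∈ Finset.range n, ∑ t : Fin (2 ^ n), w t *
        (if ((t : ℤ) - (t0 : ℤ)).natAbs ≤ 2 ^ (n - (s + 1)) then (1 : ℝ) else 0)) := by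
    rw [Finset.sum_comm, ← Finset.sum_add_distrib, Finset.mul_sum]
    refine Finset.sum_congr rfl fun t _ => ?_
    rw [← Finset.mul_sum]
    ring
  have s3 : ∑ s ∈ Finset.range n, ∑ t : Fin (2 ^ n), w t *
        (if ((t : ℤ) - (t0 : ℤ)).natAbs ≤ 2 ^ (n - (s + 1)) then (1 : ℝ) else 0)
      ≤ 3 * Real.exp 1 * W * (1 / (1 - x)) := by
    refine (Finset.sum_le_sum key).trans ?_
    rw [← Finset.mul_sum]
    exact mul_le_mul_of_nonneg_left (ccj_geom hx0 hx1 n) (by positivity)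
  have s4 : (0 : ℝ) ≤ W + 3 * Real.exp 1 * W * (1 / (1 - x)) := by
    have : 0 < 1 - x := by linarith
    positivity
  rw [s2] at s1
  refine s1.trans ?_
  calc Real.log 2 * (∑ t, w t + ∑ s ∈ Finset.range n, ∑ t : Fin (2 ^ n), w t *
        (if ((t : ℤ) - (t0 : ℤ)).natAbs ≤ 2 ^ (n - (s + 1)) then (1 : ℝ) else 0))
      ≤ Real.log 2 * (W + 3 * Real.exp 1 * W * (1 / (1 - x))) :=
        mul_le_mul_of_nonneg_left (by linarith) l2.le
    _ ≤ 1 * (W + 3 * Real.exp 1 * W * (1 / (1 - x))) := mul_le_mul_of_nonneg_right l2' s4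
    _ = DD η * W := by
        unfold DD
        rw [← hx]
        ring

end Pool.Agent.Helper75.KM

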