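import Pool.Agent.Helper75.KM.Stmts

/-!
# UNB: removing the bound on the positions of the lines (as Helper8/Kak/Shift.lean)
-/

set_option autoImplicit false

namespace Pool.Agent.Helper75.KM

open Pool.Agent.Helper8.Kak Pool.Agent.Helper89.KakGeo

theorem unb_ht {M : ℕ} (t : Fin M) {V : ℝ} (hV : |V| ≤ 1) : |ht t * V| ≤ 1 := by
  have h1 : 0 ≤ ht t := by unfold ht; positivity
  have h2 : ht t ≤ 1 := by
    unfold ht
    have : (0 : ℝ) < M := by
      have := t.pos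
      exact_mod_cast this
    rw [div_le_one this]
    exact_mod_cast t.2.le
  rw [abs_mul, abs_of_nonneg h1]
  nlinarith [abs_nonneg V]

theorem unb_floor {δ : ℝ} (hδ : 0 < δ) (u : ℝ) : |u - δ * (⌊u / δ⌋ : ℝ)| ≤ δ := by
  have a1 := Int.floor_le (u / δ)
  have a2 := Int.lt_floor_add_one (u / δ)
  have e : u - δ * (⌊u / δ⌋ : ℝ) = δ * (u / δ - (⌊u / δ⌋ : ℝ)) := by
    field_simp
  rw [e, abs_mul, abs_of_pos hδ]
  have h3 : |u / δ - (⌊u / δ⌋ : ℝ)| ≤ 1 := by
    rw [abs_le]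
    constructor <;> linarith
  nlinarith [abs_nonneg (u / δ - (⌊u / δ⌋ : ℝ))]

theorem unb_ptn {m : ℕ} (N : ℕ) {L : Type} (x v : L → Fin m → ℝ) (n : L → Fin m → ℤ) (l : L)
    (t : Fin (2 ^ N)) :
    ptn N (fun l i => x l i - n l i) v l t = fun i => ptn N x v l t i - 2 ^ N * n l i := by
  funext i
  unfold ptn cell pnt
  have e : (x l i - (n l i : ℝ) + ht t * v l i) / (1 / 2 : ℝ) ^ N
      = (x l i + ht t * v l i) / (1 / 2 : ℝ) ^ N - ((2 ^ N * n l i : ℤ) : ℝ) := by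
    push_cast
    rw [one_div, inv_pow]
    field_simp
    ring
  rw [e, Int.floor_sub_intCast]

/-- the module UNB -/
theorem st_UNB : ST_UNB := by
  intro m α hα h ε D hε hD
  obtain ⟨C, H⟩ := h ε D hε hD
  have l7 : 0 ≤ Real.log 7 := Real.log_nonneg (by norm_num)
  refine ⟨C + α * (m * Real.log 7), ?_⟩
  intro N L x v hdir Ω _ p hp K l T hconc
  set n : L → Fin m → ℤ := fun l i => ⌊x l i⌋ with hn
  set x' : L → Fin m → ℝ := fun l i => x l i - n l i with hx'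
  have hx1 : ∀ l i, |x' l i| ≤ 1 := by
    intro l i
    have a1 := Int.floor_le (x l i)
    have a2 := Int.lt_floor_add_one (x l i)
    have e : x' l i = x l i - ⌊x l i⌋ := rfl
    rw [e, abs_le]
    constructor <;> linarith
  set Nn : Setoid Ω := Setoid.ker (fun ω => n (l ω)) with hNn
  have e1 : K ⊓ Nn ⊓ Setoid.ker l = K ⊓ Setoid.ker l := by
    apply Setoid.ext
    intro ω ω'
    exact ⟨fun h => ⟨h.1.1, h.2⟩, fun h => ⟨⟨h.1, congrArg n h.2⟩, h.2⟩⟩
  have hconc' : Conc p (K ⊓ Nn) l T D := by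
    intro ω hω t
    have := hconc ω hω t
    rw [e1]
    exact this
  have i0 := H N L x' v hx1 hdir Ω p hp (K ⊓ Nn) l T hconc'
  have e2 : tt p (K ⊓ Nn) l T = tt p K l T := by
    unfold tt
    rw [e1]
  have e3 : K ⊓ Nn ⊓ Setoid.ker T ⊓ Setoid.ker (fun ω => ptn N x' v (l ω) (T ω))
      = K ⊓ Nn ⊓ Setoid.ker T ⊓ Setoid.ker (fun ω => ptn N x v (l ω) (T ω)) := by
    apply Setoid.ext
    intro ω ω'
    constructor
    · intro h
      refine ⟨h.1, ?_⟩
      have g1 : n (l ω) = n (l ω') := h.1.1.2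
      have g2 : ptn N x' v (l ω) (T ω) = ptn N x' v (l ω') (T ω') := h.2
      rw [hx', unb_ptn, unb_ptn] at g2
      change ptn N x v (l ω) (T ω) = ptn N x v (l ω') (T ω')
      funext i
      have g3 := congrFun g2 i
      have g4 := congrFun g1 i
      simp only [g4] at g3
      exact sub_left_inj.1 g3
    · intro h
      refine ⟨h.1, ?_⟩
      have g1 : n (l ω) = n (l ω') := h.1.1.2
      have g2 : ptn N x v (l ω) (T ω) = ptn N x v (l ω') (T ω') := h.2
      change ptn N x' v (l ω) (T ω) = ptn N x' v (l ω') (T ω')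
      rw [hx', unb_ptn, unb_ptn, g1, g2]
  -- the integer part is known from the point
  have hδ : (0 : ℝ) < (1 / 2) ^ N := by positivity
  have hδ1 : (1 / 2 : ℝ) ^ N ≤ 1 := pow_le_one₀ (by norm_num) (by norm_num)
  have c2 := amb_cell (δ := 1) one_pos hp
    (K ⊓ Setoid.ker T ⊓ Setoid.ker (fun ω => ptn N x v (l ω) (T ω))) (fun ω => x (l ω))
    (fun ω i => (1 / 2 : ℝ) ^ N * ((ptn N x v (l ω) (T ω) i : ℤ) : ℝ)) (fun _ => 2)
    (fun _ => zero_le_two) ?_ ?_
  rotate_left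
  · intro ω ω' _ _ h
    refine ⟨?_, rfl⟩
    have g2 : ptn N x v (l ω) (T ω) = ptn N x v (l ω') (T ω') := h.2
    funext i
    rw [g2]
  · intro ω _ i
    have g := unb_floor (δ := (1 / 2 : ℝ) ^ N) hδ (pnt x v (l ω) (T ω) i)
    have g2 := unb_ht (T ω) (hdir.1 (l ω) i)
    have e : x (l ω) i - (1 / 2 : ℝ) ^ N * ((ptn N x v (l ω) (T ω) i : ℤ) : ℝ)
        = (pnt x v (l ω) (T ω) i
          - (1 / 2 : ℝ) ^ N * (⌊pnt x v (l ω) (T ω) i / (1 / 2 : ℝ) ^ N⌋ : ℝ))
          - ht (T ω) * v (l ω) i := by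
      simp only [pnt, cell, ptn]
      ring
    rw [e, mul_one]
    exact (abs_sub _ _).trans (by linarith)
  have s2 : ∑ ω, p ω * Real.log (2 * (2 : ℝ) + 3) = Real.log 7 := by
    rw [← Finset.sum_mul, hp.2, one_mul]; norm_num
  have e4 : Setoid.ker (fun ω => cell 1 (x (l ω))) ⊓
      (K ⊓ Setoid.ker T ⊓ Setoid.ker (fun ω => ptn N x v (l ω) (T ω)))
      = K ⊓ Nn ⊓ Setoid.ker T ⊓ Setoid.ker (fun ω => ptn N x v (l ω) (T ω)) := by
    apply Setoid.ext
    intro ω ω'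
    have g0 : ∀ l, cell 1 (x l) = n l := by
      intro l
      funext i
      simp only [hn]
      unfold cell
      rw [div_one]
    have g : cell 1 (x (l ω)) = cell 1 (x (l ω')) ↔ n (l ω) = n (l ω') := by
      rw [g0, g0]
    constructor
    · intro h
      exact ⟨⟨⟨h.2.1.1, g.1 h.1⟩, h.2.1.2⟩, h.2.2⟩
    · intro h
      exact ⟨g.2 h.1.1.2, ⟨h.1.1.1, h.1.2⟩, h.2⟩
  rw [e4, s2] at c2
  have t4 : Ent p K ≤ Ent p (K ⊓ Nn) := Ent_mono hp inf_le_left
  have f0 : aa p (K ⊓ Nn) l = aa p K l - (Ent p (K ⊓ Nn) - Ent p K) := by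
    unfold aa
    rw [e1]
    ring
  have f1 : gg p (K ⊓ Nn) l T (fun ω => ptn N x' v (l ω) (T ω))
      ≤ gg p K l T (fun ω => ptn N x v (l ω) (T ω)) + m * Real.log 7
        - (Ent p (K ⊓ Nn) - Ent p K) := by
    unfold gg
    rw [e2, e3]
    linarith
  have f2 := mul_le_mul_of_nonneg_left f1 (by linarith : (0 : ℝ) ≤ α)
  have f3 : Ent p (K ⊓ Nn) - Ent p K ≤ α * (Ent p (K ⊓ Nn) - Ent p K) :=
    le_mul_of_one_le_left (by linarith) hα
  rw [e2, f0] at i0
  have f4 : α * (gg p K l T (fun ω => ptn N x v (l ω) (T ω)) + m * Real.log 7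
      - (Ent p (K ⊓ Nn) - Ent p K)) = α * gg p K l T (fun ω => ptn N x v (l ω) (T ω))
        + α * (m * Real.log 7) - α * (Ent p (K ⊓ Nn) - Ent p K) := by ring
  rw [f4] at f2
  linarith

end Pool.Agent.Helper75.KM

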